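import Mathlib

set_option autoImplicit false

namespace Pool.Agent.Results.MP_c0d803_al.IndexedNotCF

/-- A word over `Δ`, read as an element of the free group on `Δ`. -/
def ev {Δ : Type} (w : List Δ) : FreeGroup Δ := (w.map FreeGroup.of).prod

/-- The set of relators given by a language. -/
def rels {Δ : Type} (L : Language Δ) : Set (FreeGroup Δ) := {g | ∃ w : List Δ, w ∈ L ∧ ev w = g}

/-- The group with generators `Δ` and relations `w = 1` for `w ∈ L`. -/
abbrev GroupOf {Δ : Type} (L : Language Δ) : Type := PresentedGroup (rels L)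

/-- Indexed grammars (Aho 1968): finite sets of nonterminals, flags and productions; an ordinary
production rewrites a nonterminal to a string of terminals and of nonterminals that carry a string
of flags, and an index production, attached to a flag, rewrites a nonterminal to a string of
terminals and nonterminals. -/
structure IndexedGrammar (T : Type) where
  N : Type
  F : Type
  finN : Finite N
  finF : Finite F
  start : N
  prods : Set (N × List (T ⊕ (N × List F)))
  prods_finite : prods.Finite
  pops : Set (F × N × List (T ⊕ N))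
  pops_finite : pops.Finite

namespace IndexedGrammar

variable {T : Type}

/-- The flags `ζ` of the rewritten nonterminal are appended to the flags of each nonterminal. -/
def push {N F : Type} (ζ : List F) : T ⊕ (N × List F) → T ⊕ (N × List F)
  | .inl x => .inl x
  | .inr (B, η) => .inr (B, η ++ ζ)

/-- The flags `ζ` are given to each nonterminal. -/
def carry {N F : Type} (ζ : List F) : T ⊕ N → T ⊕ (N × List F)
  | .inl x => .inl x
  | .inr B => .inr (B, ζ)

/-- One step of a derivation. An index production of the flag `f` consumes the leftmost flag. -/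
inductive Step (g : IndexedGrammar T) :
    List (T ⊕ (g.N × List g.F)) → List (T ⊕ (g.N × List g.F)) → Prop
  | prod (β γ : List (T ⊕ (g.N × List g.F))) (A : g.N) (α : List (T ⊕ (g.N × List g.F)))
      (ζ : List g.F) (h : (A, α) ∈ g.prods) :
      Step g (β ++ [.inr (A, ζ)] ++ γ) (β ++ α.map (push ζ) ++ γ)
  | pop (β γ : List (T ⊕ (g.N × List g.F))) (f : g.F) (A : g.N) (α : List (T ⊕ g.N))
      (ζ : List g.F) (h : (f, A, α) ∈ g.pops) :
      Step g (β ++ [.inr (A, f :: ζ)] ++ γ) (β ++ α.map (carry ζ) ++ γ)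

/-- The language generated by an indexed grammar. -/
def language (g : IndexedGrammar T) : Language T :=
  {w | Relation.ReflTransGen (Step g) [.inr (g.start, [])] (w.map .inl)}

end IndexedGrammar

lemma IndexedGrammar.step_inv {T : Type} (g : IndexedGrammar T) (s s' : List (T ⊕ (g.N × List g.F)))
    (h : g.Step s s') :
    (∃ (β γ : List (T ⊕ (g.N × List g.F))) (A : g.N) (α : List (T ⊕ (g.N × List g.F)))
      (ζ : List g.F), (A, α) ∈ g.prods ∧ s = β ++ [.inr (A, ζ)] ++ γ ∧
        s' = β ++ α.map (push ζ) ++ γ) ∨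
    (∃ (β γ : List (T ⊕ (g.N × List g.F))) (f : g.F) (A : g.N) (α : List (T ⊕ g.N))
      (ζ : List g.F), (f, A, α) ∈ g.pops ∧ s = β ++ [.inr (A, f :: ζ)] ++ γ ∧
        s' = β ++ α.map (carry ζ) ++ γ) := by
  cases h with
  | prod β γ A α ζ h => exact Or.inl ⟨β, γ, A, α, ζ, h, rfl, rfl⟩
  | pop β γ f A α ζ h => exact Or.inr ⟨β, γ, f, A, α, ζ, h, rfl, rfl⟩

/-- A language is indexed when some indexed grammar generates it. -/
def IsIndexed {T : Type} (L : Language T) : Prop := ∃ g : IndexedGrammar T, g.language = L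

/-! ### Context-free relator sets give finitely presented groups -/

section cf

variable {Δ : Type}

lemma ev_append (u v : List Δ) : ev (u ++ v) = ev u * ev v := by
  simp [ev]

variable (g : ContextFreeGrammar Δ)

lemma split_aux (w : List Δ) (s : List (Symbol Δ g.NT)) (h : g.Derives s (w.map Symbol.terminal)) :
    ∀ x y, s = x ++ y → ∃ w1 w2 : List Δ, w = w1 ++ w2 ∧ g.Derives x (w1.map Symbol.terminal) ∧
      g.Derives y (w2.map Symbol.terminal) := by
  induction h using Relation.ReflTransGen.head_induction_on with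
  | refl =>
    intro x y hxy
    obtain ⟨w1, w2, h1, h2, h3⟩ := List.map_eq_append_iff.mp hxy
    refine ⟨w1, w2, h1, ?_, ?_⟩
    · rw [h2]
    · rw [h3]
  | head hstep _ ih =>
    rename_i a c
    intro x y hxy
    obtain ⟨r, hr, hrw⟩ := hstep
    obtain ⟨p, q, h1, h2⟩ := hrw.exists_parts
    rw [h1] at hxy
    rcases List.append_eq_append_iff.mp hxy with ⟨a', h3, h4⟩ | ⟨c', h3, h4⟩
    · -- x = (p ++ [A]) ++ a', q = a' ++ y
      obtain ⟨w1, w2, e1, e2, e3⟩ := ih (p ++ r.output ++ a') y (by rw [h2, h4]; simp)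
      refine ⟨w1, w2, e1, ?_, e3⟩
      refine ContextFreeGrammar.Produces.trans_derives ⟨r, hr, ?_⟩ e2
      rw [h3]
      exact r.rewrites_of_exists_parts p a'
    · -- p ++ [A] = x ++ c', y = c' ++ q
      rcases List.eq_nil_or_concat c' with hc | ⟨c'', b, hc⟩
      · subst hc
        rw [List.append_nil] at h3
        rw [List.nil_append] at h4
        obtain ⟨w1, w2, e1, e2, e3⟩ := ih (p ++ r.output) y (by rw [h2, h4])
        refine ⟨w1, w2, e1, ?_, e3⟩
        refine ContextFreeGrammar.Produces.trans_derives ⟨r, hr, ?_⟩ e2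
        rw [← h3]
        have := r.rewrites_of_exists_parts p []
        simpa using this
      · rw [hc, List.concat_eq_append, ← List.append_assoc] at h3
        have h5 := List.append_inj' h3 rfl
        obtain ⟨h6, h7⟩ := h5
        obtain ⟨w1, w2, e1, e2, e3⟩ := ih x (c'' ++ r.output ++ q) (by rw [h2, h6]; simp)
        refine ⟨w1, w2, e1, e2, ?_⟩
        refine ContextFreeGrammar.Produces.trans_derives ⟨r, hr, ?_⟩ e3
        rw [h4, hc, List.concat_eq_append, ← h7]
        exact r.rewrites_of_exists_parts c'' q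

lemma split (w : List Δ) (x y : List (Symbol Δ g.NT))
    (h : g.Derives (x ++ y) (w.map Symbol.terminal)) :
    ∃ w1 w2 : List Δ, w = w1 ++ w2 ∧ g.Derives x (w1.map Symbol.terminal) ∧
      g.Derives y (w2.map Symbol.terminal) := split_aux g w _ h x y rfl

/-- productive nonterminals -/
def Prodv (A : g.NT) : Prop := ∃ w : List Δ, g.Derives [Symbol.nonterminal A] (w.map Symbol.terminal)

open Classical in
noncomputable def cw (A : g.NT) : List Δ := if h : Prodv g A then h.choose else []

lemma cw_spec (A : g.NT) (h : Prodv g A) :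
    g.Derives [Symbol.nonterminal A] ((cw g A).map Symbol.terminal) := by
  unfold cw
  rw [dif_pos h]
  exact h.choose_spec

noncomputable def sub1 : Symbol Δ g.NT → List Δ
  | .terminal x => [x]
  | .nonterminal A => cw g A

noncomputable def sub (α : List (Symbol Δ g.NT)) : List Δ := (α.map (sub1 g)).flatten

lemma sub_append (α β : List (Symbol Δ g.NT)) : sub g (α ++ β) = sub g α ++ sub g β := by
  simp [sub]

lemma sub_terminal (w : List Δ) : sub g (w.map Symbol.terminal) = w := by
  induction w with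
  | nil => rfl
  | cons x w ih =>
    have : sub g ((x :: w).map Symbol.terminal) = [x] ++ sub g (w.map Symbol.terminal) := rfl
    rw [this, ih]; rfl

lemma sub_derives (α : List (Symbol Δ g.NT)) (h : ∃ w : List Δ, g.Derives α (w.map Symbol.terminal)) :
    g.Derives α ((sub g α).map Symbol.terminal) := by
  induction α with
  | nil => exact ContextFreeGrammar.Derives.refl _
  | cons s α ih =>
    obtain ⟨w, hw⟩ := h
    have h1 : s :: α = [s] ++ α := rfl
    rw [h1] at hw
    obtain ⟨w1, w2, _, h2, h3⟩ := split g w _ _ hw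
    have h4 := ih ⟨w2, h3⟩
    have h5 : g.Derives [s] ((sub1 g s).map Symbol.terminal) := by
      cases s with
      | terminal x => exact ContextFreeGrammar.Derives.refl _
      | nonterminal A => exact cw_spec g A ⟨w1, h2⟩
    have h6 : sub g (s :: α) = sub1 g s ++ sub g α := rfl
    rw [h6, List.map_append, h1]
    exact (h5.append_right α).trans (h4.append_left _)

/-- usable rules -/
def Usable (r : ContextFreeRule Δ g.NT) : Prop :=
  r ∈ g.rules ∧ ∃ (x y : List (Symbol Δ g.NT)) (w : List Δ),
    g.Derives [Symbol.nonterminal g.initial] (x ++ [Symbol.nonterminal r.input] ++ y) ∧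
    g.Derives (x ++ r.output ++ y) (w.map Symbol.terminal)

noncomputable def relOf (r : ContextFreeRule Δ g.NT) : FreeGroup Δ :=
  (ev (cw g r.input))⁻¹ * ev (sub g r.output)

def RR : Set (FreeGroup Δ) := (relOf g) '' {r | Usable g r} ∪
  {h | h = ev (cw g g.initial) ∧ Prodv g g.initial}

lemma RR_finite : (RR g).Finite := by
  apply Set.Finite.union
  · apply Set.Finite.image
    apply Set.Finite.subset (g.rules.finite_toSet)
    intro r hr
    exact hr.1
  · apply Set.Finite.subset (Set.finite_singleton (ev (cw g g.initial)))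
    rintro h ⟨rfl, _⟩
    rfl

lemma rel_mem (w : List Δ) (h : w ∈ g.language) :
    ev w ∈ Subgroup.normalClosure (rels g.language) :=
  Subgroup.subset_normalClosure ⟨w, h, rfl⟩

lemma RR_sub : RR g ⊆ Subgroup.normalClosure (rels g.language) := by
  rintro h (⟨r, ⟨hr, x, y, w, h1, h2⟩, rfl⟩ | ⟨rfl, hp⟩)
  · rw [List.append_assoc] at h2
    obtain ⟨x', w', _, hx, h3⟩ := split g w _ _ h2
    obtain ⟨z', y', _, hz, hy⟩ := split g w' _ _ h3
    have hsub := sub_derives g r.output ⟨z', hz⟩
    have hA : g.Derives [Symbol.nonterminal r.input] ((sub g r.output).map Symbol.terminal) := by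
      refine ContextFreeGrammar.Produces.trans_derives ⟨r, hr, ?_⟩ hsub
      exact ContextFreeRule.Rewrites.input_output
    have hcA := cw_spec g r.input ⟨_, hA⟩
    have hxy : g.Derives [Symbol.nonterminal g.initial]
        (x'.map Symbol.terminal ++ [Symbol.nonterminal r.input] ++ y'.map Symbol.terminal) := by
      refine h1.trans ?_
      have e1 := (hx.append_right [Symbol.nonterminal r.input]).append_right y
      have e2 := hy.append_left (x'.map Symbol.terminal ++ [Symbol.nonterminal r.input])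
      exact e1.trans e2
    have m1 : x' ++ sub g r.output ++ y' ∈ g.language := by
      rw [ContextFreeGrammar.mem_language_iff]
      refine hxy.trans ?_
      rw [List.map_append, List.map_append]
      exact (hA.append_left _).append_right _
    have m2 : x' ++ cw g r.input ++ y' ∈ g.language := by
      rw [ContextFreeGrammar.mem_language_iff]
      refine hxy.trans ?_
      rw [List.map_append, List.map_append]
      exact (hcA.append_left _).append_right _
    have n1 := rel_mem g _ m1
    have n2 := rel_mem g _ m2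
    rw [ev_append, ev_append] at n1 n2
    have n3 := Subgroup.mul_mem _ (Subgroup.inv_mem _ n2) n1
    have n4 := (Subgroup.normalClosure_normal (s := rels g.language)).conj_mem _ n3 (ev y')
    have e : ev y' * ((ev x' * ev (cw g r.input) * ev y')⁻¹ * (ev x' * ev (sub g r.output) * ev y')) * (ev y')⁻¹
        = relOf g r := by
      unfold relOf; group
    rw [e] at n4
    exact n4
  · exact rel_mem g _ (cw_spec g _ hp)

lemma rels_sub (w : List Δ) (h : w ∈ g.language) : ev w ∈ Subgroup.normalClosure (RR g) := by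
  rw [ContextFreeGrammar.mem_language_iff] at h
  have hp : Prodv g g.initial := ⟨w, h⟩
  have h0 : ev (cw g g.initial) ∈ Subgroup.normalClosure (RR g) :=
    Subgroup.subset_normalClosure (Or.inr ⟨rfl, hp⟩)
  have key : ∀ s, g.Derives [Symbol.nonterminal g.initial] s → g.Derives s (w.map Symbol.terminal) →
      ev (sub g s) ∈ Subgroup.normalClosure (RR g) := by
    intro s hs
    induction hs with
    | refl =>
      intro _
      have : sub g [Symbol.nonterminal g.initial] = cw g g.initial := by simp [sub, sub1]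
      rw [this]; exact h0
    | tail h1 h2 ih =>
      rename_i b c
      intro h3
      obtain ⟨r, hr, hrw⟩ := h2
      have h4 := ih (ContextFreeGrammar.Produces.trans_derives ⟨r, hr, hrw⟩ h3)
      obtain ⟨p, q, e1, e2⟩ := hrw.exists_parts
      have hus : relOf g r ∈ Subgroup.normalClosure (RR g) := by
        apply Subgroup.subset_normalClosure
        left
        refine ⟨r, ⟨hr, p, q, w, ?_, ?_⟩, rfl⟩
        · rw [← e1]; exact h1
        · rw [← e2]; exact h3
      rw [e1, sub_append, sub_append, ev_append, ev_append] at h4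
      rw [e2, sub_append, sub_append, ev_append, ev_append]
      have h5 : sub g [Symbol.nonterminal r.input] = cw g r.input := by simp [sub, sub1]
      rw [h5] at h4
      have h6 := (Subgroup.normalClosure_normal (s := RR g)).conj_mem _ hus (ev (sub g q))⁻¹
      have h7 := Subgroup.mul_mem _ h4 h6
      have e : ev (sub g p) * ev (cw g r.input) * ev (sub g q) *
          ((ev (sub g q))⁻¹ * relOf g r * (ev (sub g q))⁻¹⁻¹) =
          ev (sub g p) * ev (sub g r.output) * ev (sub g q) := by
        unfold relOf; group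
      rw [e] at h7
      exact h7
  have := key _ h (ContextFreeGrammar.Derives.refl _)
  rwa [sub_terminal] at this

theorem cf_fp (L : Language Δ) (h : L.IsContextFree) :
    ∃ R : Set (FreeGroup Δ), R.Finite ∧ Subgroup.normalClosure R = Subgroup.normalClosure (rels L) := by
  obtain ⟨g, rfl⟩ := h
  refine ⟨RR g, RR_finite g, le_antisymm ?_ ?_⟩
  · exact Subgroup.normalClosure_le_normal (RR_sub g)
  · apply Subgroup.normalClosure_le_normal
    rintro _ ⟨w, hw, rfl⟩
    exact rels_sub g w hw

end cf

/-! ### Finite presentability does not depend on the presentation -/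

section fp

variable {Δ Δ' : Type} [Finite Δ]

lemma mem_union (S : ℕ → Set (FreeGroup Δ)) (hS : Monotone S) (y : FreeGroup Δ)
    (hy : y ∈ Subgroup.normalClosure (⋃ n, S n)) : ∃ n, y ∈ Subgroup.normalClosure (S n) := by
  have hmono : Monotone (fun n => Subgroup.normalClosure (S n)) :=
    fun a b h => Subgroup.normalClosure_mono (hS h)
  have hdir : Directed (· ≤ ·) (fun n => Subgroup.normalClosure (S n)) := hmono.directed_le
  let U : Subgroup (FreeGroup Δ) := ⨆ n, Subgroup.normalClosure (S n)
  have hU : ∀ x, x ∈ U ↔ ∃ n, x ∈ Subgroup.normalClosure (S n) :=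
    fun x => Subgroup.mem_iSup_of_directed hdir
  haveI : U.Normal := ⟨by
    intro x hx c
    rw [hU] at hx ⊢
    obtain ⟨n, hn⟩ := hx
    exact ⟨n, Subgroup.normalClosure_normal.conj_mem x hn c⟩⟩
  have hle : Subgroup.normalClosure (⋃ n, S n) ≤ U := by
    apply Subgroup.normalClosure_le_normal
    intro x hx
    obtain ⟨n, hn⟩ := Set.mem_iUnion.mp hx
    exact (hU x).mpr ⟨n, Subgroup.subset_normalClosure hn⟩
  exact (hU y).mp (hle hy)

lemma fin_union (S : ℕ → Set (FreeGroup Δ)) (hS : Monotone S) (Y : Set (FreeGroup Δ))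
    (hY : Y.Finite) (hsub : ∀ y ∈ Y, y ∈ Subgroup.normalClosure (⋃ n, S n)) :
    ∃ n, ∀ y ∈ Y, y ∈ Subgroup.normalClosure (S n) := by
  induction Y, hY using Set.Finite.induction_on with
  | empty => exact ⟨0, fun y hy => absurd hy (Set.notMem_empty y)⟩
  | insert _ _ ih =>
    rename_i a s _ _
    obtain ⟨n, hn⟩ := ih (fun y hy => hsub y (Set.mem_insert_of_mem _ hy))
    obtain ⟨m, hm⟩ := mem_union S hS a (hsub a (Set.mem_insert _ _))
    refine ⟨max n m, ?_⟩
    intro y hy
    rcases hy with rfl | hy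
    · exact Subgroup.normalClosure_mono (hS (le_max_right _ _)) hm
    · exact Subgroup.normalClosure_mono (hS (le_max_left _ _)) (hn y hy)

theorem fp_invariance (S : ℕ → Set (FreeGroup Δ)) (hS : Monotone S) (R : Set (FreeGroup Δ'))
    (hR : R.Finite) (Rel' : Set (FreeGroup Δ'))
    (hRel' : Subgroup.normalClosure R = Subgroup.normalClosure Rel')
    (e : PresentedGroup (⋃ n, S n) ≃* PresentedGroup Rel') :
    ∃ n, (⋃ n, S n) ⊆ Subgroup.normalClosure (S n) := by
  let π : FreeGroup Δ →* PresentedGroup (⋃ n, S n) := PresentedGroup.mk _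
  let π' : FreeGroup Δ' →* PresentedGroup Rel' := PresentedGroup.mk _
  have hπ : Function.Surjective π := PresentedGroup.mk_surjective _
  have hπ' : Function.Surjective π' := PresentedGroup.mk_surjective _
  have h1 : ∀ x : Δ', ∃ y, π y = e.symm (π' (FreeGroup.of x)) := fun x => hπ _
  have h2 : ∀ x : Δ, ∃ y, π' y = e (π (FreeGroup.of x)) := fun x => hπ' _
  choose ψ0 hψ0 using h1
  choose θ0 hθ0 using h2
  let ψ : FreeGroup Δ' →* FreeGroup Δ := FreeGroup.lift ψ0
  let θ : FreeGroup Δ →* FreeGroup Δ' := FreeGroup.lift θ0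
  have hψ : ∀ x, π (ψ x) = e.symm (π' x) := by
    intro x
    have : π.comp ψ = (e.symm.toMonoidHom).comp π' := by
      apply FreeGroup.ext_hom
      intro x
      simp only [MonoidHom.comp_apply, ψ, FreeGroup.lift_apply_of]
      exact hψ0 x
    exact DFunLike.congr_fun this x
  have hθ : ∀ x, π' (θ x) = e (π x) := by
    intro x
    have : π'.comp θ = (e.toMonoidHom).comp π := by
      apply FreeGroup.ext_hom
      intro x
      simp only [MonoidHom.comp_apply, θ, FreeGroup.lift_apply_of]
      exact hθ0 x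
    exact DFunLike.congr_fun this x
  let Y : Set (FreeGroup Δ) := (ψ '' R) ∪ Set.range (fun x : Δ => ψ (θ (FreeGroup.of x)) * (FreeGroup.of x)⁻¹)
  have hYfin : Y.Finite := (hR.image _).union (Set.finite_range _)
  have hYsub : ∀ y ∈ Y, y ∈ Subgroup.normalClosure (⋃ n, S n) := by
    rintro y (⟨r, hr, rfl⟩ | ⟨x, rfl⟩)
    · rw [← PresentedGroup.mk_eq_one_iff]
      change π (ψ r) = 1
      rw [hψ]
      have : π' r = 1 := by
        change PresentedGroup.mk _ r = 1
        rw [PresentedGroup.mk_eq_one_iff, ← hRel']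
        exact Subgroup.subset_normalClosure hr
      rw [this, map_one]
    · rw [← PresentedGroup.mk_eq_one_iff]
      change π (ψ (θ (FreeGroup.of x)) * (FreeGroup.of x)⁻¹) = 1
      rw [map_mul, hψ, hθ, e.symm_apply_apply, map_inv, mul_inv_cancel]
  obtain ⟨n, hn⟩ := fin_union S hS Y hYfin hYsub
  refine ⟨n, ?_⟩
  intro y hy
  have hθy : θ y ∈ Subgroup.normalClosure R := by
    rw [hRel', ← PresentedGroup.mk_eq_one_iff]
    change π' (θ y) = 1
    rw [hθ]
    have : π y = 1 := PresentedGroup.mk_eq_one_iff.mpr (Subgroup.subset_normalClosure hy)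
    rw [this, map_one]
  have hcom : Subgroup.normalClosure R ≤ (Subgroup.normalClosure (S n)).comap ψ := by
    apply Subgroup.normalClosure_le_normal
    intro r hr
    exact hn _ (Or.inl ⟨r, hr, rfl⟩)
  have h3 : ψ (θ y) ∈ Subgroup.normalClosure (S n) := hcom hθy
  let q : FreeGroup Δ →* PresentedGroup (S n) := PresentedGroup.mk _
  have h4 : q.comp (ψ.comp θ) = q := by
    apply FreeGroup.ext_hom
    intro x
    have h5 := hn _ (Or.inr ⟨x, rfl⟩)
    rw [← PresentedGroup.mk_eq_one_iff, map_mul, map_inv, mul_inv_eq_one] at h5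
    exact h5
  have h5 : q y = 1 := by
    rw [← h4]
    change q (ψ (θ y)) = 1
    exact PresentedGroup.mk_eq_one_iff.mpr h3
  exact PresentedGroup.mk_eq_one_iff.mp h5

end fp

/-! ### The language -/

section lang

/-- letters: `0` is `a`, `1` is `t`, `2` is the inverse of `t` -/
def vw (n : ℕ) : List (Fin 3) := [0] ++ List.replicate n 1 ++ [0] ++ List.replicate n 2
def ww (n : ℕ) : List (Fin 3) := vw n ++ vw n

def L0 : Language (Fin 3) := {w | w = [0, 0] ∨ w = [1, 2] ∨ ∃ n, w = ww n}

abbrev Form := List (Fin 3 ⊕ (Fin 5 × List Bool))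

def P0 : Set (Fin 5 × Form) := {(0, [.inl 0, .inl 0]), (0, [.inl 1, .inl 2]),
  (0, [.inr (1, [false])]), (1, [.inr (1, [true])]), (1, [.inr (2, []), .inr (2, [])]),
  (2, [.inl 0, .inr (3, []), .inl 0, .inr (4, [])])}

def Q0 : Set (Bool × Fin 5 × List (Fin 3 ⊕ Fin 5)) :=
  {(false, 3, []), (false, 4, []), (true, 3, [.inl 1, .inr 3]), (true, 4, [.inl 2, .inr 4])}

def g0 : IndexedGrammar (Fin 3) where
  N := Fin 5
  F := Bool
  finN := inferInstance
  finF := inferInstance
  start := 0
  prods := P0
  prods_finite := by unfold P0; exact Set.toFinite _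
  pops := Q0
  pops_finite := by unfold Q0; exact Set.toFinite _

lemma g0_inv (s s' : Form) (h : g0.Step s s') :
    (∃ (β γ : Form) (A : Fin 5) (α : Form) (ζ : List Bool), (A, α) ∈ P0 ∧
      s = β ++ [.inr (A, ζ)] ++ γ ∧ s' = β ++ α.map (IndexedGrammar.push ζ) ++ γ) ∨
    (∃ (β γ : Form) (f : Bool) (A : Fin 5) (α : List (Fin 3 ⊕ Fin 5)) (ζ : List Bool),
      (f, A, α) ∈ Q0 ∧ s = β ++ [.inr (A, f :: ζ)] ++ γ ∧
        s' = β ++ α.map (IndexedGrammar.carry ζ) ++ γ) := g0.step_inv s s' h

lemma g0_prod (β γ : Form) (A : Fin 5) (α : Form) (ζ : List Bool) (h : (A, α) ∈ P0) :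
    g0.Step (β ++ [.inr (A, ζ)] ++ γ : Form) (β ++ α.map (IndexedGrammar.push ζ) ++ γ : Form) :=
  IndexedGrammar.Step.prod (g := g0) β γ A α ζ h

lemma g0_pop (β γ : Form) (f : Bool) (A : Fin 5) (α : List (Fin 3 ⊕ Fin 5)) (ζ : List Bool)
    (h : (f, A, α) ∈ Q0) :
    g0.Step (β ++ [.inr (A, f :: ζ)] ++ γ : Form)
      (β ++ α.map (IndexedGrammar.carry ζ) ++ γ : Form) :=
  IndexedGrammar.Step.pop (g := g0) β γ f A α ζ h

/-- number of leading `true` flags -/
def cnt : List Bool → ℕ
  | true :: l => cnt l + 1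
  | _ => 0

def Val (A : Fin 5) (ζ : List Bool) : Language (Fin 3) :=
  if A = 0 then L0 else if A = 1 then {w | ∃ n, w = ww n} else if A = 2 then {vw (cnt ζ)}
  else if A = 3 then {List.replicate (cnt ζ) 1} else {List.replicate (cnt ζ) 2}

def sv : Fin 3 ⊕ (Fin 5 × List Bool) → Language (Fin 3)
  | .inl x => {[x]}
  | .inr (A, ζ) => Val A ζ

def FV (s : List (Fin 3 ⊕ (Fin 5 × List Bool))) : Language (Fin 3) := (s.map sv).prod

lemma FV_append (s s' : List (Fin 3 ⊕ (Fin 5 × List Bool))) : FV (s ++ s') = FV s * FV s' := by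
  simp [FV]

lemma sing_mul (u v : List (Fin 3)) : ({u} : Language (Fin 3)) * {v} = {u ++ v} := by
  change Set.image2 (· ++ ·) {u} {v} = {u ++ v}
  exact Set.image2_singleton

lemma FV_single (x) : FV [x] = sv x := by simp [FV]
lemma FV_nil : FV [] = {[]} := rfl
lemma FV_cons (x s) : FV (x :: s) = sv x * FV s := rfl

lemma FV_terminal (w : List (Fin 3)) : FV (w.map .inl) = {w} := by
  induction w with
  | nil => rfl
  | cons x w ih =>
    rw [List.map_cons, FV_cons, ih]
    change ({[x]} : Language (Fin 3)) * {w} = {x :: w}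
    rw [sing_mul]; rfl

lemma step_sound (s s' : List (Fin 3 ⊕ (Fin 5 × List Bool))) (h : g0.Step s s') : FV s' ≤ FV s := by
  rcases g0_inv s s' h with ⟨β, γ, A, α, ζ, hm, rfl, rfl⟩ | ⟨β, γ, f, A, α, ζ, hm, rfl, rfl⟩
  · have key : FV (α.map (IndexedGrammar.push ζ)) ≤ FV [.inr (A, ζ)] := by
      rw [FV_single]
      unfold P0 at hm
      simp only [Set.mem_insert_iff, Set.mem_singleton_iff, Prod.mk.injEq] at hm
      rcases hm with ⟨rfl, rfl⟩ | ⟨rfl, rfl⟩ | ⟨rfl, rfl⟩ | ⟨rfl, rfl⟩ | ⟨rfl, rfl⟩ | ⟨rfl, rfl⟩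
      · have : FV ([.inl 0, .inl 0].map (IndexedGrammar.push ζ)) = {[0, 0]} := FV_terminal [0, 0]
        rw [this]
        rintro w rfl
        exact Or.inl rfl
      · have : FV ([.inl 1, .inl 2].map (IndexedGrammar.push ζ)) = {[1, 2]} := FV_terminal [1, 2]
        rw [this]
        rintro w rfl
        exact Or.inr (Or.inl rfl)
      · change FV [.inr (1, [false] ++ ζ)] ≤ _
        rw [FV_single]
        rintro w ⟨n, rfl⟩
        exact Or.inr (Or.inr ⟨n, rfl⟩)
      · change FV [.inr (1, [true] ++ ζ)] ≤ _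
        rw [FV_single]
        exact le_refl _
      · change FV [.inr (2, ζ), .inr (2, ζ)] ≤ _
        rw [FV_cons, FV_single]
        change ({vw (cnt ζ)} : Language (Fin 3)) * {vw (cnt ζ)} ≤ _
        rw [sing_mul]
        rintro w rfl
        exact ⟨cnt ζ, rfl⟩
      · change FV [.inl 0, .inr (3, ζ), .inl 0, .inr (4, ζ)] ≤ _
        rw [FV_cons, FV_cons, FV_cons, FV_single]
        change ({[0]} : Language (Fin 3)) * (({List.replicate (cnt ζ) 1} : Language (Fin 3)) *
          (({[0]} : Language (Fin 3)) * {List.replicate (cnt ζ) 2})) ≤ _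
        rw [sing_mul, sing_mul, sing_mul]
        rintro w rfl
        change _ = vw (cnt ζ)
        simp [vw]
    rw [FV_append, FV_append, FV_append, FV_append]
    exact mul_le_mul' (mul_le_mul' le_rfl key) le_rfl
  · have key : FV (α.map (IndexedGrammar.carry ζ)) ≤ FV [.inr (A, f :: ζ)] := by
      rw [FV_single]
      unfold Q0 at hm
      simp only [Set.mem_insert_iff, Set.mem_singleton_iff, Prod.mk.injEq] at hm
      rcases hm with ⟨rfl, rfl, rfl⟩ | ⟨rfl, rfl, rfl⟩ | ⟨rfl, rfl, rfl⟩ | ⟨rfl, rfl, rfl⟩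
      · exact le_refl _
      · exact le_refl _
      · change FV [.inl 1, .inr (3, ζ)] ≤ _
        rw [FV_cons, FV_single]
        change ({[1]} : Language (Fin 3)) * {List.replicate (cnt ζ) 1} ≤
          ({List.replicate (cnt ζ + 1) 1} : Language (Fin 3))
        rw [sing_mul, List.replicate_succ]
        exact le_refl _
      · change FV [.inl 2, .inr (4, ζ)] ≤ _
        rw [FV_cons, FV_single]
        change ({[2]} : Language (Fin 3)) * {List.replicate (cnt ζ) 2} ≤
          ({List.replicate (cnt ζ + 1) 2} : Language (Fin 3))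
        rw [sing_mul, List.replicate_succ]
        exact le_refl _
    rw [FV_append, FV_append, FV_append, FV_append]
    exact mul_le_mul' (mul_le_mul' le_rfl key) le_rfl

abbrev Der : Form → Form → Prop := Relation.ReflTransGen g0.Step

lemma step_ctx (x y s s' : Form) (h : g0.Step s s') : g0.Step (x ++ s ++ y) (x ++ s' ++ y) := by
  rcases g0_inv s s' h with ⟨β, γ, A, α, ζ, hm, rfl, rfl⟩ | ⟨β, γ, f, A, α, ζ, hm, rfl, rfl⟩
  · have := g0_prod (x ++ β) (γ ++ y) A α ζ hm
    simpa only [List.append_assoc] using this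
  · have := g0_pop (x ++ β) (γ ++ y) f A α ζ hm
    simpa only [List.append_assoc] using this

lemma der_ctx (x y s s' : Form) (h : Der s s') : Der (x ++ s ++ y) (x ++ s' ++ y) := by
  induction h with
  | refl => exact Relation.ReflTransGen.refl
  | tail _ h2 ih => exact ih.tail (step_ctx x y _ _ h2)

lemma der_append (s s' r r' : Form) (h1 : Der s s') (h2 : Der r r') : Der (s ++ r) (s' ++ r') := by
  have e1 := der_ctx [] r _ _ h1
  have e2 := der_ctx s' [] _ _ h2
  rw [List.nil_append, List.nil_append] at e1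
  rw [List.append_nil, List.append_nil] at e2
  exact e1.trans e2

lemma one_prod (A : Fin 5) (α : Form) (ζ : List Bool) (h : (A, α) ∈ P0) :
    Der [.inr (A, ζ)] (α.map (IndexedGrammar.push ζ)) := by
  have := g0_prod [] [] A α ζ h
  rw [List.nil_append, List.nil_append, List.append_nil, List.append_nil] at this
  exact Relation.ReflTransGen.single this

lemma one_pop (f : Bool) (A : Fin 5) (α : List (Fin 3 ⊕ Fin 5)) (ζ : List Bool)
    (h : (f, A, α) ∈ Q0) :
    Der [.inr (A, f :: ζ)] (α.map (IndexedGrammar.carry ζ)) := by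
  have := g0_pop [] [] f A α ζ h
  rw [List.nil_append, List.nil_append, List.append_nil, List.append_nil] at this
  exact Relation.ReflTransGen.single this

def stk (n : ℕ) : List Bool := List.replicate n true ++ [false]

lemma derB (n : ℕ) : Der [.inr (3, stk n)] ((List.replicate n (1 : Fin 3)).map .inl) := by
  induction n with
  | zero =>
    exact one_pop false 3 [] [] (Or.inl rfl)
  | succ n ih =>
    have h1 := one_pop true 3 [.inl 1, .inr 3] (stk n) (Or.inr (Or.inr (Or.inl rfl)))
    have h2 : Der ([.inl 1] ++ [.inr (3, stk n)]) ([.inl 1] ++ (List.replicate n (1 : Fin 3)).map .inl) :=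
      der_append _ _ _ _ Relation.ReflTransGen.refl ih
    exact h1.trans h2

lemma derD (n : ℕ) : Der [.inr (4, stk n)] ((List.replicate n (2 : Fin 3)).map .inl) := by
  induction n with
  | zero =>
    exact one_pop false 4 [] [] (Or.inr (Or.inl rfl))
  | succ n ih =>
    have h1 := one_pop true 4 [.inl 2, .inr 4] (stk n) (Or.inr (Or.inr (Or.inr rfl)))
    have h2 : Der ([.inl 2] ++ [.inr (4, stk n)]) ([.inl 2] ++ (List.replicate n (2 : Fin 3)).map .inl) :=
      der_append _ _ _ _ Relation.ReflTransGen.refl ih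
    exact h1.trans h2

lemma derV (n : ℕ) : Der [.inr (2, stk n)] ((vw n).map .inl) := by
  have h1 := one_prod 2 [.inl 0, .inr (3, []), .inl 0, .inr (4, [])] (stk n)
    (Or.inr (Or.inr (Or.inr (Or.inr (Or.inr rfl)))))
  have h2 : Der ([.inl 0] ++ [.inr (3, stk n)] ++ [.inl 0] ++ [.inr (4, stk n)])
      ([.inl 0] ++ (List.replicate n (1 : Fin 3)).map .inl ++ [.inl 0] ++
        (List.replicate n (2 : Fin 3)).map .inl) :=
    der_append _ _ _ _ (der_append _ _ _ _ (der_append _ _ _ _ Relation.ReflTransGen.refl (derB n))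
      Relation.ReflTransGen.refl) (derD n)
  have e : (vw n).map Sum.inl = ([.inl 0] ++ (List.replicate n (1 : Fin 3)).map .inl ++ [.inl 0] ++
        (List.replicate n (2 : Fin 3)).map .inl : Form) := by
    simp [vw]
  rw [e]
  exact h1.trans h2

lemma derW (n : ℕ) : Der [.inr (1, [false])] [.inr (1, stk n)] := by
  induction n with
  | zero => exact Relation.ReflTransGen.refl
  | succ n ih =>
    have h1 := one_prod 1 [.inr (1, [true])] (stk n) (Or.inr (Or.inr (Or.inr (Or.inl rfl))))
    exact ih.trans h1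

lemma lang_eq : g0.language = L0 := by
  apply le_antisymm
  · intro w hw
    have h1 : ∀ s : Form, Der [.inr (0, [])] s → FV s ≤ L0 := by
      intro s hs
      induction hs with
      | refl => rw [FV_single]; exact le_refl _
      | tail _ h2 ih => exact (step_sound _ _ h2).trans ih
    have h2 := h1 _ hw
    have h3 : w ∈ FV (w.map .inl) := by
      rw [FV_terminal]; rfl
    exact h2 h3
  · rintro w (rfl | rfl | ⟨n, rfl⟩)
    · exact one_prod 0 [.inl 0, .inl 0] [] (Or.inl rfl)
    · exact one_prod 0 [.inl 1, .inl 2] [] (Or.inr (Or.inl rfl))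
    · have h1 := one_prod 0 [.inr (1, [false])] [] (Or.inr (Or.inr (Or.inl rfl)))
      have h2 := derW n
      have h3 := one_prod 1 [.inr (2, []), .inr (2, [])] (stk n)
        (Or.inr (Or.inr (Or.inr (Or.inr (Or.inl rfl)))))
      have h4 : Der ([.inr (2, stk n)] ++ [.inr (2, stk n)]) ((vw n).map .inl ++ (vw n).map .inl) :=
        der_append _ _ _ _ (derV n) (derV n)
      rw [← List.map_append] at h4
      exact ((h1.trans h2).trans h3).trans h4

end lang

/-! ### The group is not finitely presented -/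

section notfp

def Sn (n : ℕ) : Set (FreeGroup (Fin 3)) :=
  {g | g = ev [0, 0] ∨ g = ev [1, 2] ∨ ∃ m, m ≤ n ∧ g = ev (ww m)}

lemma Sn_mono : Monotone Sn := by
  rintro a b hab g (h | h | ⟨m, hm, h⟩)
  · exact Or.inl h
  · exact Or.inr (Or.inl h)
  · exact Or.inr (Or.inr ⟨m, hm.trans hab, h⟩)

lemma Sn_union : (⋃ n, Sn n) = rels L0 := by
  ext g
  rw [Set.mem_iUnion]
  constructor
  · rintro ⟨n, (h | h | ⟨m, hm, h⟩)⟩
    · exact ⟨_, Or.inl rfl, h.symm⟩
    · exact ⟨_, Or.inr (Or.inl rfl), h.symm⟩
    · exact ⟨_, Or.inr (Or.inr ⟨m, rfl⟩), h.symm⟩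
  · rintro ⟨w, (rfl | rfl | ⟨n, rfl⟩), rfl⟩
    · exact ⟨0, Or.inl rfl⟩
    · exact ⟨0, Or.inr (Or.inl rfl)⟩
    · exact ⟨n, Or.inr (Or.inr ⟨n, le_refl _, rfl⟩)⟩

/-- the shift -/
def τ : Equiv.Perm ℤ := Equiv.addRight 1

def h0 (m : ℕ) : Fin 3 → Equiv.Perm ℤ
  | 0 => Equiv.swap 0 (m : ℤ)
  | 1 => τ
  | 2 => τ⁻¹

def hh (m : ℕ) : FreeGroup (Fin 3) →* Equiv.Perm ℤ := FreeGroup.lift (h0 m)

lemma hh_of (m : ℕ) (x : Fin 3) : hh m (FreeGroup.of x) = h0 m x := by
  simp [hh]

lemma hh_ev (m : ℕ) (w : List (Fin 3)) : hh m (ev w) = (w.map (h0 m)).prod := by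
  unfold ev
  rw [map_list_prod, List.map_map]
  have h : (⇑(hh m) ∘ FreeGroup.of) = h0 m := funext (hh_of m)
  rw [h]

lemma τ_pow (n : ℕ) (x : ℤ) : (τ ^ n) x = x + n := by
  induction n with
  | zero => simp
  | succ n ih =>
    rw [pow_succ', Equiv.Perm.mul_apply, ih]
    simp [τ]
    ring

lemma hh_vw (m n : ℕ) : hh m (ev (vw n)) =
    Equiv.swap 0 (m : ℤ) * Equiv.swap (n : ℤ) (m + n : ℤ) := by
  rw [hh_ev]
  have e1 : ((vw n).map (h0 m)).prod = Equiv.swap 0 (m : ℤ) * (τ ^ n * Equiv.swap 0 (m : ℤ) * (τ ^ n)⁻¹) := by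
    simp [vw, h0, mul_assoc]
  rw [e1]
  congr 1
  have h1 : (τ ^ n) * Equiv.swap 0 (m : ℤ) = Equiv.swap ((τ ^ n) 0) ((τ ^ n) m) * τ ^ n :=
    Equiv.mul_swap_eq_swap_mul _ _ _
  rw [h1, mul_inv_cancel_right, τ_pow, τ_pow, zero_add]

lemma sq_apply (a b c d x : ℤ) :
    ((Equiv.swap a b * Equiv.swap c d) * (Equiv.swap a b * Equiv.swap c d)) x =
      Equiv.swap a b (Equiv.swap c d (Equiv.swap a b (Equiv.swap c d x))) := rfl

lemma notfp (n : ℕ) : ¬ ((⋃ n, Sn n) ⊆ Subgroup.normalClosure (Sn n)) := by
  intro hsub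
  have h1 : Subgroup.normalClosure (Sn n) ≤ (hh (n + 1)).ker := by
    apply Subgroup.normalClosure_le_normal
    rintro g (rfl | rfl | ⟨m, hm, rfl⟩)
    · change hh (n + 1) _ = 1
      rw [hh_ev]
      simp [h0]
    · change hh (n + 1) _ = 1
      rw [hh_ev]
      simp [h0]
    · change hh (n + 1) _ = 1
      unfold ww
      rw [ev_append, map_mul, hh_vw]
      rcases Nat.eq_zero_or_pos m with h0 | hpos
      · subst h0
        simp
      · apply Equiv.ext
        intro x
        rw [sq_apply]
        change _ = x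
        simp only [Equiv.swap_apply_def]
        push_cast
        split_ifs <;> omega
  have h2 : ev (ww (n + 1)) ∈ (⋃ n, Sn n) :=
    Set.mem_iUnion.mpr ⟨n + 1, Or.inr (Or.inr ⟨n + 1, le_refl _, rfl⟩)⟩
  have h3 : hh (n + 1) (ev (ww (n + 1))) = 1 := h1 (hsub h2)
  unfold ww at h3
  rw [ev_append, map_mul, hh_vw] at h3
  have h4 := DFunLike.congr_fun h3 0
  rw [sq_apply] at h4
  change _ = (0 : ℤ) at h4
  simp only [Equiv.swap_apply_def] at h4
  push_cast at h4
  split_ifs at h4 <;> omega

end notfp

/-- There is a finitely generated group with an indexed set of relators that has no presentation,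
over any finite alphabet, with a context-free set of relators. -/
theorem result : ∃ L : Language (Fin 3), IsIndexed L ∧
    ∀ (Δ : Type) [Finite Δ] (L' : Language Δ), L'.IsContextFree →
      IsEmpty (GroupOf L ≃* GroupOf L') := by
  refine ⟨L0, ⟨g0, lang_eq⟩, ?_⟩
  intro Δ _ L' hL'
  refine ⟨fun e => ?_⟩
  obtain ⟨R, hR, hR2⟩ := cf_fp L' hL'
  have e' : PresentedGroup (⋃ n, Sn n) ≃* PresentedGroup (rels L') := by
    rw [Sn_union]; exact e
  obtain ⟨n, hn⟩ := fp_invariance Sn Sn_mono R hR (rels L') hR2 e'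
  exact notfp n hn

end Pool.Agent.Results.MP_c0d803_al.IndexedNotCF
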